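import Pool.Agent.W721.CC.FROB

set_option autoImplicit false

/-!
Project CC: blow-ups (helper721).
-/

namespace Pool.Agent.W721.CC.BLOW

open Finset Pool.Agent.W857.CC Pool.Agent.W721.CC.FROB
open scoped Classical

theorem mem_cl {V : Type} [Fintype V] {k : ℕ} (part : V → Fin k) (i : Fin k) (v : V) :
    v ∈ cl part i ↔ part v = i := by
  simp [cl]

theorem sum_cl {V : Type} [Fintype V] {k : ℕ} (part : V → Fin k) (f : V → ℝ) :
    ∑ i, ∑ v ∈ cl part i, f v = ∑ v, f v := by
  rw [← Finset.sum_fiberwise univ part f]
  refine Finset.sum_congr rfl fun i _ => Finset.sum_congr ?_ fun _ _ => rfl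
  ext v
  simp [cl]

theorem main : S_PERRON → S_RAY → S_BLOW := by
  intro hP hR V _ _ k H part R s hadj hs
  obtain ⟨x, hx0, ⟨v0, hv0⟩, hx⟩ := hP V H
  set N := ∑ v, x v ^ 2 with hN
  have hNpos : 0 < N := by
    refine lt_of_lt_of_le ?_ (Finset.single_le_sum (f := fun v => x v ^ 2)
      (fun w _ => sq_nonneg _) (Finset.mem_univ v0))
    positivity
  have hne : Nonempty (Fin k) := ⟨part v0⟩
  let z : Fin k → ℝ := fun i => ∑ v ∈ cl part i, x v
  have hs0 : 0 ≤ s := le_trans (by positivity) (hs (part v0))
  have h1 : lam H * N = ∑ v, x v * nsum H x v := by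
    rw [hN, Finset.mul_sum]
    refine Finset.sum_congr rfl fun v _ => ?_
    rw [hx v]; ring
  have h2 : ∑ v, x v * nsum H x v ≤ ∑ i, z i * nsum R z i := by
    have e1 : ∑ i, z i * nsum R z i =
        ∑ v, ∑ w, if R.Adj (part v) (part w) then x v * x w else 0 := by
      rw [bf_eq]
      have e2 : ∀ i j, (if R.Adj i j then z i * z j else 0) =
          ∑ v ∈ cl part i, ∑ w ∈ cl part j,
            if R.Adj (part v) (part w) then x v * x w else 0 := by
        intro i j
        split_ifs with hij
        · simp only [z]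
          rw [Finset.sum_mul_sum]
          refine Finset.sum_congr rfl fun v hv => Finset.sum_congr rfl fun w hw => ?_
          rw [(mem_cl part i v).mp hv, (mem_cl part j w).mp hw, if_pos hij]
        · symm
          refine Finset.sum_eq_zero fun v hv => Finset.sum_eq_zero fun w hw => ?_
          rw [(mem_cl part i v).mp hv, (mem_cl part j w).mp hw, if_neg hij]
      simp only [e2]
      have e3 : ∀ i, ∑ j, ∑ v ∈ cl part i, ∑ w ∈ cl part j,
            (if R.Adj (part v) (part w) then x v * x w else 0) =
          ∑ v ∈ cl part i, ∑ w, (if R.Adj (part v) (part w) then x v * x w else 0) := by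
        intro i
        rw [Finset.sum_comm]
        refine Finset.sum_congr rfl fun v _ => ?_
        exact sum_cl part _
      simp only [e3]
      exact sum_cl part _
    rw [e1, bf_eq]
    refine Finset.sum_le_sum fun v _ => Finset.sum_le_sum fun w _ => ?_
    have h0 : 0 ≤ x v * x w := mul_nonneg (hx0 v) (hx0 w)
    by_cases hh : H.Adj v w
    · rw [if_pos hh, if_pos (hadj v w hh)]
    · rw [if_neg hh]
      split_ifs
      · exact h0
      · exact le_rfl
  have h3 := hR (Fin k) R z
  have h4 : ∑ i, z i ^ 2 ≤ s * N := by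
    calc ∑ i, z i ^ 2 ≤ ∑ i, s * ∑ v ∈ cl part i, x v ^ 2 := by
          refine Finset.sum_le_sum fun i _ => ?_
          refine (sq_sum_le_card_mul_sum_sq).trans ?_
          exact mul_le_mul_of_nonneg_right (hs i) (Finset.sum_nonneg fun v _ => sq_nonneg _)
      _ = s * N := by
          rw [← Finset.mul_sum, hN]
          congr 1
          exact sum_cl part _
  have h5 : 0 ≤ lam R := by
    have i0 : Fin k := part v0
    have := hR (Fin k) R (Pi.single i0 1)
    have e1 : ∑ v, (Pi.single i0 (1 : ℝ) : Fin k → ℝ) v * nsum R (Pi.single i0 1) v = 0 := by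
      rw [bf_eq]
      refine Finset.sum_eq_zero fun v _ => Finset.sum_eq_zero fun w _ => ?_
      split_ifs with h
      · by_cases hv : v = i0
        · by_cases hw : w = i0
          · rw [hv, hw] at h
            exact absurd h (R.loopless.irrefl _)
          · rw [Pi.single_eq_of_ne hw, mul_zero]
        · rw [Pi.single_eq_of_ne hv, zero_mul]
      · rfl
    have e2 : ∑ v, (Pi.single i0 (1 : ℝ) : Fin k → ℝ) v ^ 2 = 1 := by
      rw [Finset.sum_eq_single i0]
      · simp
      · intro b _ hb
        simp [hb]
      · simp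
    rw [e1, e2] at this
    linarith
  have h6 : lam H * N ≤ s * lam R * N := by
    calc lam H * N ≤ lam R * ∑ i, z i ^ 2 := by rw [h1]; exact h2.trans h3
      _ ≤ lam R * (s * N) := mul_le_mul_of_nonneg_left h4 h5
      _ = s * lam R * N := by ring
  exact le_of_mul_le_mul_right h6 hNpos

end Pool.Agent.W721.CC.BLOW
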