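import Pool.Agent.W721.CC.FROB

set_option autoImplicit false

/-!
Project CC: passing to a component of the reduced graph (helper721).
-/

namespace Pool.Agent.W721.CC.COMP

open Finset Pool.Agent.W857.CC Pool.Agent.W721.CC.FROB
open scoped Classical

theorem main : S_PERRON → S_RAY → S_COMP := by
  intro hP hR V _ _ k H part R hadj
  obtain ⟨x, hx0, ⟨v0, hv0⟩, hx⟩ := hP V H
  let S : Finset (Fin k) := univ.filter fun i => R.Reachable (part v0) i
  have hmS : ∀ i, i ∈ S ↔ R.Reachable (part v0) i := by
    intro i; simp [S]
  have hreach : ∀ i, R.Reachable (part v0) i → (restr R S).Reachable (part v0) i := by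
    intro i hi
    rw [SimpleGraph.reachable_iff_reflTransGen] at hi
    induction hi with
    | refl => exact SimpleGraph.Reachable.refl _
    | tail hab hbc ih =>
      rename_i b c
      refine ih.trans ?_
      have hb : b ∈ S := by
        rw [hmS, SimpleGraph.reachable_iff_reflTransGen]; exact hab
      have hc : c ∈ S := by
        rw [hmS, SimpleGraph.reachable_iff_reflTransGen]; exact hab.tail hbc
      exact SimpleGraph.Adj.reachable (G := restr R S) ⟨hbc, hb, hc⟩
  refine ⟨S, ?_, ?_⟩
  · intro i hi j hj
    exact (hreach i ((hmS i).mp hi)).symm.trans (hreach j ((hmS j).mp hj))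
  · set W : Finset V := univ.filter fun v => part v ∈ S with hW
    have hmW : ∀ v, v ∈ W ↔ part v ∈ S := by
      intro v; simp [W]
    have hv0W : v0 ∈ W := by
      rw [hmW, hmS]
    let y : V → ℝ := fun v => if v ∈ W then x v else 0
    have hy : ∀ v, y v * nsum (restr H W) y v = lam H * y v ^ 2 := by
      intro v
      by_cases hv : v ∈ W
      · have e1 : nsum (restr H W) y v = nsum H x v := by
          refine Finset.sum_congr rfl fun w _ => ?_
          by_cases hh : H.Adj v w
          · have hw : w ∈ W := by
              rw [hmW, hmS]
              have h1 := (hmS _).mp ((hmW v).mp hv)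
              exact h1.trans (hadj v w hh).reachable
            have h2 : (restr H W).Adj v w := ⟨hh, hv, hw⟩
            rw [if_pos hh, if_pos h2]
            simp [y, hw]
          · have h2 : ¬ (restr H W).Adj v w := fun h => hh h.1
            rw [if_neg hh, if_neg h2]
        rw [e1, hx v]
        simp only [y, if_pos hv]
        ring
      · simp [y, hv]
    have h1 := hR V (restr H W) y
    simp only [hy] at h1
    rw [← Finset.mul_sum] at h1
    have hpos : 0 < ∑ v, y v ^ 2 := by
      refine lt_of_lt_of_le ?_ (Finset.single_le_sum (f := fun v => y v ^ 2)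
        (fun w _ => sq_nonneg _) (Finset.mem_univ v0))
      have : y v0 = x v0 := by simp [y, hv0W]
      simp only [this]
      positivity
    have h2 := le_of_mul_le_mul_right h1 hpos
    convert h2 using 3

end Pool.Agent.W721.CC.COMP
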