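import Pool.Agent.W857.CC.Stm

set_option autoImplicit false

/-!
Project CC: a triangle-free graph has a cut with at least `lam ^ 2` edges (helper721).
-/

namespace Pool.Agent.W721.CC.CUT

open Finset Pool.Agent.W857.CC
open scoped Classical

theorem cut : S_PERRON → S_CUT := by
  intro hP V _ _ G htri
  obtain ⟨x, hx0, ⟨v0, hv0⟩, hx⟩ := hP V G
  obtain ⟨u, hu⟩ := Finite.exists_max x
  have hupos : 0 < x u := lt_of_lt_of_le hv0 (hu v0)
  let A : Finset V := univ.filter fun v => G.Adj u v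
  have hmA : ∀ v, v ∈ A ↔ G.Adj u v := by
    intro v; simp [A]
  refine ⟨A, ?_⟩
  have h1 : lam G ^ 2 * x u = ∑ v ∈ A, nsum G x v := by
    have e1 : lam G ^ 2 * x u = lam G * nsum G x u := by rw [hx u]; ring
    rw [e1, nsum, Finset.mul_sum, Finset.sum_filter]
    refine Finset.sum_congr rfl fun v _ => ?_
    split_ifs with h
    · rw [hx v]
    · ring
  have h2 : ∀ v ∈ A, nsum G x v ≤ ∑ w ∈ Aᶜ, if G.Adj v w then x u else 0 := by
    intro v hv
    rw [nsum, ← Finset.sum_add_sum_compl A]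
    have e1 : ∑ w ∈ A, (if G.Adj v w then x w else 0) = 0 := by
      refine Finset.sum_eq_zero fun w hw => ?_
      rw [if_neg]
      intro h
      exact htri u v w ((hmA v).mp hv) h ((hmA w).mp hw)
    rw [e1, zero_add]
    refine Finset.sum_le_sum fun w _ => ?_
    split_ifs
    · exact hu w
    · exact le_rfl
  have h3 : (eb G A Aᶜ : ℝ) * x u = ∑ v ∈ A, ∑ w ∈ Aᶜ, if G.Adj v w then x u else 0 := by
    rw [eb, Finset.card_filter, Finset.sum_product]
    push_cast
    rw [Finset.sum_mul]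
    refine Finset.sum_congr rfl fun v _ => ?_
    rw [Finset.sum_mul]
    refine Finset.sum_congr rfl fun w _ => ?_
    split_ifs <;> simp
  have h4 : lam G ^ 2 * x u ≤ (eb G A Aᶜ : ℝ) * x u := by
    rw [h1, h3]
    exact Finset.sum_le_sum h2
  exact le_of_mul_le_mul_right h4 hupos

theorem eb_le {V : Type} [Fintype V] (G : SimpleGraph V) (A : Finset V) :
    eb G A Aᶜ ≤ Fintype.card V ^ 2 / 4 := by
  have e1 : eb G A Aᶜ ≤ #A * #Aᶜ := by
    rw [eb, ← Finset.card_product]
    exact Finset.card_filter_le _ _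
  have e2 : #A + #Aᶜ = Fintype.card V := Finset.card_add_card_compl A
  refine e1.trans ?_
  rw [Nat.le_div_iff_mul_le (by norm_num), ← e2]
  have h : 2 * #A * #Aᶜ ≤ #A ^ 2 + #Aᶜ ^ 2 := two_mul_le_add_sq _ _
  nlinarith

theorem tri : S_CUT → S_TRI := by
  intro hC n G hlam
  by_contra hcon
  push Not at hcon
  rcases Nat.eq_zero_or_pos n with hn | hn
  · subst hn
    have h1 : lam G = 0 := by
      rw [lam]
      convert Real.sSup_empty
      ext μ
      simp only [Set.mem_empty_iff_false, iff_false]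
      rintro ⟨x, hx, _⟩
      exact hx (Subsingleton.elim _ _)
    rw [h1] at hlam
    exact absurd hlam (not_lt.mpr (Real.sqrt_nonneg _))
  · have hne : Nonempty (Fin n) := ⟨⟨0, hn⟩⟩
    obtain ⟨A, hA⟩ := hC (Fin n) G hcon
    have h1 := eb_le G A
    rw [Fintype.card_fin] at h1
    have h2 : lam G ^ 2 ≤ ((n ^ 2 / 4 : ℕ) : ℝ) := hA.trans (by exact_mod_cast h1)
    have h3 : lam G ≤ Real.sqrt ((n ^ 2 / 4 : ℕ) : ℝ) := Real.le_sqrt_of_sq_le h2
    exact absurd hlam (not_lt.mpr h3)

end Pool.Agent.W721.CC.CUT
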