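import Pool.Agent.W857.CC.Stm

set_option autoImplicit false

/-!
Project CC: deleting few edges (helper721).
-/

namespace Pool.Agent.W721.CC.FROB

open Finset Pool.Agent.W857.CC
open scoped Classical

theorem bf_eq {V : Type} [Fintype V] (G : SimpleGraph V) (x y : V → ℝ) :
    ∑ v, x v * nsum G y v = ∑ v, ∑ w, if G.Adj v w then x v * y w else 0 := by
  simp only [nsum, Finset.mul_sum]
  refine Finset.sum_congr rfl fun v _ => Finset.sum_congr rfl fun w _ => ?_
  split_ifs <;> simp

theorem main : S_PERRON → S_RAY → S_FROB := by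
  intro hP hR V _ _ G H κ hκ
  obtain ⟨x, hx0, ⟨v0, hv0⟩, hx⟩ := hP V G
  set N := ∑ v, x v ^ 2 with hN
  have hNpos : 0 < N := by
    refine lt_of_lt_of_le ?_ (Finset.single_le_sum (f := fun v => x v ^ 2)
      (fun w _ => sq_nonneg _) (Finset.mem_univ v0))
    positivity
  have h1 : lam G * N = ∑ v, x v * nsum G x v := by
    rw [hN, Finset.mul_sum]
    refine Finset.sum_congr rfl fun v _ => ?_
    rw [hx v]; ring
  have h2 := hR V H x
  rw [← hN] at h2
  set S := univ.filter fun p : V × V => G.Adj p.1 p.2 ∧ ¬ H.Adj p.1 p.2 with hS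
  have h3 : ∑ v, x v * nsum G x v ≤ ∑ v, x v * nsum H x v + ∑ p ∈ S, x p.1 * x p.2 := by
    rw [bf_eq, bf_eq, hS, Finset.sum_filter, ← Finset.univ_product_univ, Finset.sum_product,
      ← Finset.sum_add_distrib]
    refine Finset.sum_le_sum fun v _ => ?_
    rw [← Finset.sum_add_distrib]
    refine Finset.sum_le_sum fun w _ => ?_
    have h0 : 0 ≤ x v * x w := mul_nonneg (hx0 v) (hx0 w)
    by_cases hg : G.Adj v w <;> by_cases hh : H.Adj v w <;> simp [hg, hh, h0]
  have h4 : (∑ p ∈ S, x p.1 * x p.2) ≤ Real.sqrt κ * N := by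
    have h5 := Finset.sum_mul_sq_le_sq_mul_sq S (fun _ => (1 : ℝ)) (fun p => x p.1 * x p.2)
    simp only [one_mul, one_pow, Finset.sum_const, nsmul_eq_mul, mul_one] at h5
    have h6 : ∑ p ∈ S, (x p.1 * x p.2) ^ 2 ≤ N ^ 2 := by
      calc ∑ p ∈ S, (x p.1 * x p.2) ^ 2 ≤ ∑ p : V × V, (x p.1 * x p.2) ^ 2 :=
            Finset.sum_le_sum_of_subset_of_nonneg (Finset.subset_univ _)
              fun p _ _ => sq_nonneg _
        _ = N ^ 2 := by
            rw [← Finset.univ_product_univ, Finset.sum_product, sq N, hN, Finset.sum_mul_sum]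
            refine Finset.sum_congr rfl fun v _ => Finset.sum_congr rfl fun w _ => ?_
            ring
    have hk0 : 0 ≤ κ := le_trans (by positivity) hκ
    have h7 : (∑ p ∈ S, x p.1 * x p.2) ^ 2 ≤ κ * N ^ 2 := by
      refine h5.trans ?_
      exact mul_le_mul hκ h6 (Finset.sum_nonneg fun p _ => sq_nonneg _) hk0
    have h8 : κ * N ^ 2 = (Real.sqrt κ * N) ^ 2 := by
      rw [mul_pow, Real.sq_sqrt hk0]
    rw [h8] at h7
    exact le_of_sq_le_sq h7 (by positivity)
  have h9 : (lam G - Real.sqrt κ) * N ≤ lam H * N := by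
    rw [sub_mul, h1]
    linarith
  exact le_of_mul_le_mul_right h9 hNpos

end Pool.Agent.W721.CC.FROB
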