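import Pool.Agent.W857.CC.Stm

set_option autoImplicit false

/-!
Project CC: Perron vector and Rayleigh quotients (helper721).
-/

namespace Pool.Agent.W721.CC.SPEC

open Finset Pool.Agent.W857.CC
open scoped Classical

variable {V : Type} [Fintype V]

theorem mulVec_eq (G : SimpleGraph V) (x : V → ℝ) (v : V) :
    (G.adjMatrix ℝ).mulVec x v = nsum G x v := by
  simp only [Matrix.mulVec, dotProduct, SimpleGraph.adjMatrix_apply, nsum, ite_mul, one_mul,
    zero_mul]

theorem nsum_add (G : SimpleGraph V) (x y : V → ℝ) (v : V) :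
    nsum G (x + y) v = nsum G x v + nsum G y v := by
  simp only [nsum, ← Finset.sum_add_distrib, Pi.add_apply]
  refine Finset.sum_congr rfl fun w _ => ?_
  split_ifs <;> simp

theorem nsum_smul (G : SimpleGraph V) (c : ℝ) (x : V → ℝ) (v : V) :
    nsum G (c • x) v = c * nsum G x v := by
  simp only [nsum, Finset.mul_sum, Pi.smul_apply, smul_eq_mul]
  refine Finset.sum_congr rfl fun w _ => ?_
  split_ifs <;> simp

theorem bf_eq (G : SimpleGraph V) (x y : V → ℝ) :
    ∑ v, x v * nsum G y v = ∑ v, ∑ w, if G.Adj v w then x v * y w else 0 := by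
  simp only [nsum, Finset.mul_sum]
  refine Finset.sum_congr rfl fun v _ => Finset.sum_congr rfl fun w _ => ?_
  split_ifs <;> simp

theorem bf_symm (G : SimpleGraph V) (x y : V → ℝ) :
    ∑ v, x v * nsum G y v = ∑ v, y v * nsum G x v := by
  rw [bf_eq, bf_eq, Finset.sum_comm]
  refine Finset.sum_congr rfl fun v _ => Finset.sum_congr rfl fun w _ => ?_
  simp only [G.adj_comm w v]
  split_ifs
  · ring
  · rfl

theorem nsum_continuous (G : SimpleGraph V) (v : V) : Continuous fun y : V → ℝ => nsum G y v := by
  unfold nsum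
  refine continuous_finsetSum _ fun w _ => ?_
  split_ifs
  · exact continuous_apply w
  · exact continuous_const

theorem key [Nonempty V] (G : SimpleGraph V) :
    ∃ x : V → ℝ, (∀ v, 0 ≤ x v) ∧ (∃ v, 0 < x v) ∧ (∀ v, nsum G x v = lam G * x v) ∧
      ∀ y : V → ℝ, ∑ v, y v * nsum G y v ≤ lam G * ∑ v, y v ^ 2 := by
  let K : Set (V → ℝ) := {y | ∑ v, y v ^ 2 = 1}
  let q : (V → ℝ) → ℝ := fun y => ∑ v, y v * nsum G y v
  have hq : Continuous q :=
    continuous_finsetSum _ fun v _ => (continuous_apply v).mul (nsum_continuous G v)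
  have hKc : IsClosed K :=
    isClosed_eq (continuous_finsetSum _ fun v _ => (continuous_apply v).pow 2) continuous_const
  have hKb : K ⊆ Metric.closedBall 0 1 := by
    intro y hy
    rw [mem_closedBall_zero_iff, pi_norm_le_iff_of_nonneg zero_le_one]
    intro v
    have h1 : y v ^ 2 ≤ 1 := by
      rw [← show ∑ v, y v ^ 2 = 1 from hy]
      exact Finset.single_le_sum (f := fun v => y v ^ 2) (fun w _ => sq_nonneg _)
        (Finset.mem_univ v)
    rw [Real.norm_eq_abs]
    exact abs_le_one_iff_mul_self_le_one.mpr (by nlinarith)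
  have hKcomp : IsCompact K := by
    refine Metric.isCompact_of_isClosed_isBounded hKc (Metric.isBounded_closedBall.subset hKb)
  have hne : K.Nonempty := by
    obtain ⟨v0⟩ := ‹Nonempty V›
    refine ⟨Pi.single v0 1, ?_⟩
    change ∑ v, (Pi.single v0 1 : V → ℝ) v ^ 2 = 1
    rw [Finset.sum_eq_single v0]
    · simp
    · intro b _ hb
      simp [Pi.single_apply, hb]
    · simp
  obtain ⟨x0, hx0, hmax⟩ := hKcomp.exists_isMaxOn hne hq.continuousOn
  set m := q x0 with hm
  have hall : ∀ y : V → ℝ, q y ≤ m * ∑ v, y v ^ 2 := by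
    intro y
    set N := ∑ v, y v ^ 2 with hN
    have hN0 : 0 ≤ N := Finset.sum_nonneg fun v _ => sq_nonneg _
    rcases hN0.eq_or_lt with h0 | h0
    · have hy : ∀ v, y v = 0 := by
        intro v
        have := (Finset.sum_eq_zero_iff_of_nonneg (fun v _ => sq_nonneg (y v))).mp
          (hN.symm.trans h0.symm) v (Finset.mem_univ v)
        exact pow_eq_zero_iff (two_ne_zero) |>.mp this
      have : q y = 0 := Finset.sum_eq_zero fun v _ => by rw [hy v]; ring
      rw [this, ← h0]; simp
    · have hs : 0 < Real.sqrt N := Real.sqrt_pos.mpr h0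
      have hmem : ((Real.sqrt N)⁻¹ • y) ∈ K := by
        change ∑ v, ((Real.sqrt N)⁻¹ • y) v ^ 2 = 1
        simp only [Pi.smul_apply, smul_eq_mul, mul_pow, ← Finset.mul_sum]
        rw [← hN, inv_pow, Real.sq_sqrt h0.le]
        exact inv_mul_cancel₀ h0.ne'
      have h1 : q ((Real.sqrt N)⁻¹ • y) ≤ m := hmax hmem
      have h2 : q ((Real.sqrt N)⁻¹ • y) = N⁻¹ * q y := by
        simp only [q, Pi.smul_apply, smul_eq_mul, nsum_smul, Finset.mul_sum]
        refine Finset.sum_congr rfl fun v _ => ?_
        have h3 : (Real.sqrt N)⁻¹ * (Real.sqrt N)⁻¹ = N⁻¹ := by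
          rw [← mul_inv, Real.mul_self_sqrt h0.le]
        rw [← h3]; ring
      rw [h2] at h1
      rw [inv_mul_le_iff₀ h0] at h1
      linarith
  -- absolute values
  let x : V → ℝ := fun v => |x0 v|
  have hxK : ∑ v, x v ^ 2 = 1 := by
    simp only [x, sq_abs]
    exact hx0
  have hx1 : m ≤ q x := by
    rw [hm]
    simp only [q]
    rw [bf_eq, bf_eq]
    refine Finset.sum_le_sum fun v _ => Finset.sum_le_sum fun w _ => ?_
    split_ifs
    · simp only [x]
      rw [← abs_mul]
      exact le_abs_self _
    · exact le_rfl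
  have hx2 : q x = m := by
    refine le_antisymm ?_ hx1
    have := hall x
    rwa [hxK, mul_one] at this
  have hex : ∃ v, 0 < x v := by
    by_contra hcon
    push Not at hcon
    have : ∑ v, x v ^ 2 = 0 := Finset.sum_eq_zero fun v _ => by
      have h1 : x v = 0 := le_antisymm (hcon v) (abs_nonneg _)
      rw [h1]; ring
    rw [hxK] at this
    exact one_ne_zero this
  have heig : ∀ v, nsum G x v = m * x v := by
    intro v0
    let e : V → ℝ := Pi.single v0 1
    have h1 : ∀ t : ℝ, 2 * t * (nsum G x v0 - m * x v0) + t ^ 2 * (q e - m) ≤ 0 := by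
      intro t
      have h2 := hall (x + t • e)
      have h3 : q (x + t • e) = m + 2 * t * nsum G x v0 + t ^ 2 * q e := by
        have e1 : q (x + t • e) = q x + t * ∑ v, x v * nsum G e v + t * ∑ v, e v * nsum G x v +
            t ^ 2 * q e := by
          simp only [q, Finset.mul_sum, ← Finset.sum_add_distrib]
          refine Finset.sum_congr rfl fun v _ => ?_
          rw [nsum_add, nsum_smul]
          simp only [Pi.add_apply, Pi.smul_apply, smul_eq_mul]
          ring
        rw [e1, bf_symm G x e, hx2]
        have e2 : ∑ v, e v * nsum G x v = nsum G x v0 := by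
          rw [Finset.sum_eq_single v0]
          · simp [e]
          · intro b _ hb
            simp [e, Pi.single_apply, hb]
          · simp
        rw [e2]; ring
      have h4 : ∑ v, (x + t • e) v ^ 2 = 1 + 2 * t * x v0 + t ^ 2 := by
        have e1 : ∑ v, (x + t • e) v ^ 2 = ∑ v, x v ^ 2 + 2 * t * ∑ v, e v * x v +
            t ^ 2 * ∑ v, e v ^ 2 := by
          simp only [Finset.mul_sum, ← Finset.sum_add_distrib]
          refine Finset.sum_congr rfl fun v _ => ?_
          simp only [Pi.add_apply, Pi.smul_apply, smul_eq_mul]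
          ring
        have e2 : ∑ v, e v * x v = x v0 := by
          rw [Finset.sum_eq_single v0]
          · simp [e]
          · intro b _ hb
            simp [e, Pi.single_apply, hb]
          · simp
        have e3 : ∑ v, e v ^ 2 = 1 := by
          rw [Finset.sum_eq_single v0]
          · simp [e]
          · intro b _ hb
            simp [e, Pi.single_apply, hb]
          · simp
        rw [e1, e2, e3, hxK]; ring
      rw [h3, h4] at h2
      linarith
    set a := nsum G x v0 - m * x v0 with ha
    set b := q e - m with hb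
    have h5 : a = 0 := by
      by_contra hane
      have hpos : 0 < a ^ 2 := by positivity
      -- take t = a / (1 + |b|)
      have h6 := h1 (a / (1 + |b|))
      have hb1 : 0 < 1 + |b| := by positivity
      have h7 : 2 * (a / (1 + |b|)) * a + (a / (1 + |b|)) ^ 2 * b =
          a ^ 2 * (2 * (1 + |b|) + b) / (1 + |b|) ^ 2 := by
        field_simp
      rw [h7] at h6
      have h8 : 0 < 2 * (1 + |b|) + b := by
        have := neg_abs_le b
        have := abs_nonneg b
        linarith
      have h9 : 0 < a ^ 2 * (2 * (1 + |b|) + b) / (1 + |b|) ^ 2 := by positivity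
      linarith
    linarith
  have hlam : lam G = m := by
    have hg : IsGreatest {μ : ℝ | ∃ x : V → ℝ, x ≠ 0 ∧ (G.adjMatrix ℝ).mulVec x = μ • x} m := by
      constructor
      · refine ⟨x, ?_, ?_⟩
        · intro h0
          obtain ⟨v, hv⟩ := hex
          rw [h0] at hv
          exact lt_irrefl _ hv
        · funext v
          rw [mulVec_eq, heig v]
          rfl
      · rintro μ ⟨y, hy0, hy⟩
        have h1 := hall y
        have h2 : q y = μ * ∑ v, y v ^ 2 := by
          simp only [q, Finset.mul_sum]
          refine Finset.sum_congr rfl fun v _ => ?_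
          rw [← mulVec_eq, hy]
          simp only [Pi.smul_apply, smul_eq_mul]
          ring
        have h3 : 0 < ∑ v, y v ^ 2 := by
          obtain ⟨v, hv⟩ := Function.ne_iff.mp hy0
          refine lt_of_lt_of_le ?_ (Finset.single_le_sum (f := fun v => y v ^ 2)
            (fun w _ => sq_nonneg _) (Finset.mem_univ v))
          have hv' : y v ≠ 0 := hv
          positivity
        rw [h2] at h1
        exact le_of_mul_le_mul_right h1 h3
    exact hg.csSup_eq
  refine ⟨x, fun v => abs_nonneg _, hex, ?_, ?_⟩
  · rw [hlam]; exact heig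
  · rw [hlam]; exact hall

theorem perron : S_PERRON := by
  intro V _ _ G
  obtain ⟨x, h1, h2, h3, _⟩ := key G
  exact ⟨x, h1, h2, h3⟩

theorem ray : S_RAY := by
  intro V _ _ G y
  obtain ⟨x, _, _, _, h⟩ := key G
  exact h y

end Pool.Agent.W721.CC.SPEC
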